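import Mathlib

/-!
# Quantum key agreement over a classical channel, with an oracle

Two parties, Alice and Bob, have quantum computers with finite dimensional memories and quantum
access to the same oracle, and exchange classical messages.
-/

set_option autoImplicit false

namespace Pool.Agent.H822R2.KA

/-- An elementary step of a quantum computer with basis states `σ` and an oracle with positions
`ι`. -/
inductive Step (ι σ : Type) : Type where
  /-- apply a linear map (a unitary, or the Kraus operator of a measurement outcome) -/
  | lin (U : Matrix σ σ ℂ) : Step ι σ
  /-- ask the oracle in superposition: the basis state `s` gets the sign `-1` if the bit at the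
  position `q s` of the oracle is `1` (nothing happens to `s` if `q s = none`) -/
  | ask (q : σ → Option ι) : Step ι σ

/-- The effect of a step on the vector of amplitudes, for the oracle `h`. -/
def Step.act {ι σ : Type} [Fintype σ] (h : ι → Bool) : Step ι σ → (σ → ℂ) → (σ → ℂ)
  | .lin U, v => U.mulVec v
  | .ask q, v => fun s => match q s with
    | none => v s
    | some i => if h i then - v s else v s

/-- The effect of a list of steps. -/
def run {ι σ : Type} [Fintype σ] (h : ι → Bool) : List (Step ι σ) → (σ → ℂ) → (σ → ℂ)
  | [], v => v
  | s :: l, v => run h l (s.act h v)

/-- The number of questions in a list of steps. -/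
def asks {ι σ : Type} : List (Step ι σ) → ℕ
  | [] => 0
  | .lin _ :: l => asks l
  | .ask _ :: l => asks l + 1

/-- A protocol with messages in `M` and keys in `κ`. A transcript is the list of the messages sent
so far, the newest first. -/
structure Protocol (ι σ τ M κ : Type) : Type where
  /-- does Alice send the next message? -/
  turn : List M → Bool
  /-- the initial state of Alice -/
  initA : σ → ℂ
  /-- the initial state of Bob -/
  initB : τ → ℂ
  /-- `moveA t m`: what Alice does when she sends `m` after the transcript `t` (the outcome of her
  measurement being `m`) -/
  moveA : List M → M → List (Step ι σ)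
  /-- the same for Bob -/
  moveB : List M → M → List (Step ι τ)
  /-- `keyA t a`: what Alice does at the end when her key is `a` -/
  keyA : List M → κ → List (Step ι σ)
  /-- the same for Bob -/
  keyB : List M → κ → List (Step ι τ)

variable {ι σ τ M κ : Type}

/-- All that Alice does, for a given transcript. -/
def Protocol.stepsA (P : Protocol ι σ τ M κ) : List M → List (Step ι σ)
  | [] => []
  | m :: t => P.stepsA t ++ (if P.turn t then P.moveA t m else [])

/-- All that Bob does, for a given transcript. -/
def Protocol.stepsB (P : Protocol ι σ τ M κ) : List M → List (Step ι τ)
  | [] => []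
  | m :: t => P.stepsB t ++ (if P.turn t then [] else P.moveB t m)

/-- The probability that the messages are `t`, the key of Alice is `a` and the key of Bob is `b`,
for the oracle `h`: the square of the norm of the final vector, a tensor product. -/
noncomputable def Protocol.prob [Fintype σ] [Fintype τ] (P : Protocol ι σ τ M κ) (h : ι → Bool)
    (t : List M) (a b : κ) : ℝ :=
  (∑ s, ‖run h (P.stepsA t ++ P.keyA t a) P.initA s‖ ^ 2) *
    ∑ s, ‖run h (P.stepsB t ++ P.keyB t b) P.initB s‖ ^ 2

/-- A classical adaptive algorithm asking for bits of the oracle. -/
inductive DTree (ι κ : Type) : Type where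
  /-- stop with output `k` -/
  | leaf (k : κ) : DTree ι κ
  /-- ask for the bit at the position `i` -/
  | node (i : ι) (t₀ t₁ : DTree ι κ) : DTree ι κ

/-- The output. -/
def DTree.eval (h : ι → Bool) : DTree ι κ → κ
  | .leaf k => k
  | .node i t₀ t₁ => if h i then t₁.eval h else t₀.eval h

/-- The number of questions in the worst case. -/
def DTree.depth : DTree ι κ → ℕ
  | .leaf _ => 0
  | .node _ t₀ t₁ => max t₀.depth t₁.depth + 1

end Pool.Agent.H822R2.KA
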