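import Pool.Agent.H822R2.KA.Defs
import Pool.Agent.H627R2.PccStruct

/-!
# Amplitudes are functions of low degree
-/

set_option autoImplicit false

namespace Pool.Agent.H822R2.KA

open Finset Pool.Agent.H627R2.Pcc

variable {ι σ : Type} [DecidableEq ι]

/-- the oracle as a function with values in `Bool` -/
def tb (x : ι → ZMod 2) : ι → Bool := fun i => decide (x i = 1)

theorem degLE_const (d : ℕ) (c : ℂ) : DegLE d (fun _ : ι → ZMod 2 => c) := by
  intro K _ hK x
  have h1 : ∑ U ∈ K.powerset, (-1 : ℂ) ^ U.card = 0 := by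
    have := Finset.sum_powerset_neg_one_pow_card_of_nonempty (Finset.card_pos.1 (by omega) :
      K.Nonempty)
    exact_mod_cast congrArg (fun z : ℤ => (z : ℂ)) this
  rw [← Finset.sum_mul, h1, zero_mul]

theorem DegLE.mono {d d' : ℕ} (h : d ≤ d') {f : (ι → ZMod 2) → ℂ} (hf : DegLE d f) :
    DegLE d' f := fun K hK hd x => hf K hK (by omega) x

theorem degLE_sum {α : Type*} {d : ℕ} (s : Finset α) (c : α → ℂ) (f : α → (ι → ZMod 2) → ℂ)
    (hf : ∀ j ∈ s, DegLE d (f j)) : DegLE d (fun x => ∑ j ∈ s, c j * f j x) := by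
  intro K hK hd x
  simp only [Finset.mul_sum]
  rw [Finset.sum_comm]
  refine Finset.sum_eq_zero fun j hj => ?_
  have := hf j hj K hK hd x
  have h2 : ∑ U ∈ K.powerset, (-1 : ℂ) ^ U.card * (c j * f j (flipc x (U.biUnion id))) =
      c j * ∑ U ∈ K.powerset, (-1 : ℂ) ^ U.card * f j (flipc x (U.biUnion id)) := by
    rw [Finset.mul_sum]
    refine Finset.sum_congr rfl fun U _ => ?_
    ring
  rw [h2, this, mul_zero]

/-- the sign of a bit -/
noncomputable def sgn (x : ι → ZMod 2) (i : ι) : ℂ := if x i = 1 then -1 else 1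

theorem sgn_flip (x : ι → ZMod 2) (i : ι) {T : Finset ι} (h : i ∈ T) :
    sgn (flipc x T) i = - sgn x i := by
  unfold sgn
  rw [flipc_apply_mem x h]
  have : ∀ a : ZMod 2, (if a + 1 = 1 then (-1 : ℂ) else 1) = - (if a = 1 then -1 else 1) := by
    intro a
    have ha : a = 0 ∨ a = 1 := by revert a; decide
    rcases ha with rfl | rfl
    · have h0 : ((0 : ZMod 2) + 1 = 1) := by decide
      have h1 : ¬ ((0 : ZMod 2) = 1) := by decide
      rw [if_pos h0, if_neg h1]
    · have h0 : ¬ ((1 : ZMod 2) + 1 = 1) := by decide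
      rw [if_neg h0, if_pos rfl, neg_neg]
  exact this _

theorem sgn_noflip (x : ι → ZMod 2) (i : ι) {T : Finset ι} (h : i ∉ T) :
    sgn (flipc x T) i = sgn x i := by
  unfold sgn
  rw [flipc_apply_notMem x h]

theorem flipc_union (x : ι → ZMod 2) {T U : Finset ι} (h : Disjoint T U) :
    flipc x (T ∪ U) = flipc (flipc x T) U := by
  funext i
  by_cases hT : i ∈ T
  · have hU : i ∉ U := Finset.disjoint_left.1 h hT
    simp [flipc, hT, hU]
  · by_cases hU : i ∈ U
    · simp [flipc, hT, hU]
    · simp [flipc, hT, hU]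

theorem degLE_sgn {d : ℕ} {f : (ι → ZMod 2) → ℂ} (hf : DegLE d f) (i : ι) :
    DegLE (d + 1) (fun x => sgn x i * f x) := by
  classical
  intro K hK hd x
  by_cases h0 : ∃ B ∈ K, i ∈ B
  · obtain ⟨B, hB, hiB⟩ := h0
    obtain ⟨K', hK', rfl⟩ : ∃ K', B ∉ K' ∧ K = insert B K' :=
      ⟨K.erase B, Finset.notMem_erase _ _, (Finset.insert_erase hB).symm⟩
    rw [Finset.card_insert_of_notMem hK'] at hd
    have hpd : (K' : Set (Finset ι)).PairwiseDisjoint id :=
      hK.subset (by rw [Finset.coe_insert]; exact Set.subset_insert _ _)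
    have hdis : ∀ U ∈ K'.powerset, Disjoint B (U.biUnion id) := by
      intro U hU
      rw [Finset.disjoint_biUnion_right]
      intro C hC
      have hCK := Finset.mem_powerset.1 hU hC
      refine hK (Finset.mem_coe.2 (Finset.mem_insert_self _ _))
        (Finset.mem_coe.2 (Finset.mem_insert_of_mem hCK)) ?_
      rintro rfl
      exact hK' hCK
    rw [Finset.sum_powerset_insert hK']
    have e1 : ∑ U ∈ K'.powerset, (-1 : ℂ) ^ U.card *
        (sgn (flipc x (U.biUnion id)) i * f (flipc x (U.biUnion id))) =
        sgn x i * ∑ U ∈ K'.powerset, (-1 : ℂ) ^ U.card * f (flipc x (U.biUnion id)) := by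
      rw [Finset.mul_sum]
      refine Finset.sum_congr rfl fun U hU => ?_
      rw [sgn_noflip x i (Finset.disjoint_left.1 (hdis U hU) hiB)]
      ring
    have e2 : ∑ U ∈ K'.powerset, (-1 : ℂ) ^ (insert B U).card *
        (sgn (flipc x ((insert B U).biUnion id)) i * f (flipc x ((insert B U).biUnion id))) =
        sgn x i * ∑ U ∈ K'.powerset, (-1 : ℂ) ^ U.card *
          f (flipc (flipc x B) (U.biUnion id)) := by
      rw [Finset.mul_sum]
      refine Finset.sum_congr rfl fun U hU => ?_
      have hBU : B ∉ U := fun h => hK' (Finset.mem_powerset.1 hU h)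
      have h1 : (insert B U).biUnion id = B ∪ U.biUnion id := by
        rw [Finset.biUnion_insert]
        rfl
      rw [Finset.card_insert_of_notMem hBU, h1, flipc_union x (hdis U hU),
        sgn_noflip (flipc x B) i (Finset.disjoint_left.1 (hdis U hU) hiB), sgn_flip x i hiB,
        pow_succ]
      ring
    rw [e1, e2, hf K' hpd (by omega) x, hf K' hpd (by omega) (flipc x B)]
    ring
  · push Not at h0
    have e1 : ∑ U ∈ K.powerset, (-1 : ℂ) ^ U.card *
        (sgn (flipc x (U.biUnion id)) i * f (flipc x (U.biUnion id))) =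
        sgn x i * ∑ U ∈ K.powerset, (-1 : ℂ) ^ U.card * f (flipc x (U.biUnion id)) := by
      rw [Finset.mul_sum]
      refine Finset.sum_congr rfl fun U hU => ?_
      rw [sgn_noflip x i]
      · ring
      · rw [Finset.mem_biUnion]
        rintro ⟨C, hC, hi⟩
        exact h0 C (Finset.mem_powerset.1 hU hC) hi
    rw [e1, hf K hK (by omega) x, mul_zero]

theorem degLE_run [Fintype σ] (l : List (Step ι σ)) : ∀ {d : ℕ} {v : (ι → ZMod 2) → σ → ℂ},
    (∀ s, DegLE d (fun x => v x s)) → ∀ s, DegLE (d + asks l) (fun x => run (tb x) l (v x) s) := by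
  induction l with
  | nil => intro d v hv s; exact hv s
  | cons a l ih =>
    intro d v hv s
    cases a with
    | lin U =>
      refine ih (d := d) (v := fun x => U.mulVec (v x)) (fun s' => ?_) s
      exact degLE_sum Finset.univ (fun j => U s' j) (fun j x => v x j) fun j _ => hv j
    | ask q =>
      have h := ih (d := d + 1) (v := fun x => (Step.ask q).act (tb x) (v x)) (fun s' => ?_) s
      · have e : d + asks (Step.ask q :: l) = d + 1 + asks l := by
          show d + (asks l + 1) = _
          omega
        rw [e]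
        exact h
      · rcases hq : q s' with _ | i
        · have : (fun x => (Step.ask q).act (tb x) (v x) s') = fun x => v x s' := by
            funext x
            simp only [Step.act, hq]
          rw [this]
          exact DegLE.mono (Nat.le_succ d) (hv s')
        · have : (fun x => (Step.ask q).act (tb x) (v x) s') = fun x => sgn x i * v x s' := by
            funext x
            simp only [Step.act, hq, sgn, tb]
            by_cases h1 : x i = 1
            · simp [h1]
            · simp [h1]
          rw [this]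
          exact degLE_sgn (hv s') i

end Pool.Agent.H822R2.KA
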