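import Pool.Agent.H822R2.KA.Red

/-!
# Quantum parties, classical communication: key agreement and public-key encryption
-/

set_option autoImplicit false

namespace Pool.Agent.H822R2.KA

open Finset

variable {ι σ τ κ K C μ I : Type}

/-- A public-key encryption scheme with quantum algorithms, public keys in `K`, ciphertexts in `C`
and messages in `μ`. The secret key is the quantum state left by the key generation. -/
structure PKE (ι σ τ K C μ : Type) : Type where
  /-- the initial state of the owner of the secret key -/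
  initA : σ → ℂ
  /-- `gen pk`: the key generation, when the public key is `pk` -/
  gen : K → List (Step ι σ)
  /-- the initial state of the encryption -/
  initB : τ → ℂ
  /-- `enc pk m c`: the encryption of `m` with the public key `pk`, when the ciphertext is `c` -/
  enc : K → μ → C → List (Step ι τ)
  /-- `dec pk c m`: the decryption of `c`, starting with the state left by the key generation, when
  the result is `m` -/
  dec : K → C → μ → List (Step ι σ)

/-- The probability that the public key is `pk`, the encryption of `m` is `c`, and the decryption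
of `c` is `m'`. -/
noncomputable def PKE.prob [Fintype σ] [Fintype τ] (S : PKE ι σ τ K C μ) (h : ι → Bool) (pk : K)
    (m : μ) (c : C) (m' : μ) : ℝ :=
  (∑ s, ‖run h (S.gen pk ++ S.dec pk c m') S.initA s‖ ^ 2) *
    ∑ s, ‖run h (S.enc pk m c) S.initB s‖ ^ 2

/-- the decision tree followed by a function -/
def DTree.post (φ : κ → Bool) : DTree ι κ → DTree ι Bool
  | .leaf k => .leaf (φ k)
  | .node i t₀ t₁ => .node i (t₀.post φ) (t₁.post φ)

theorem DTree.depth_post (φ : κ → Bool) (T : DTree ι κ) : (T.post φ).depth = T.depth := by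
  induction T with
  | leaf k => rfl
  | node i t₀ t₁ h₀ h₁ => simp only [DTree.post, DTree.depth, h₀, h₁]

theorem DTree.eval_post (φ : κ → Bool) (h : ι → Bool) (T : DTree ι κ) :
    (T.post φ).eval h = φ (T.eval h) := by
  induction T with
  | leaf k => rfl
  | node i t₀ t₁ h₀ h₁ =>
    simp only [DTree.post, DTree.eval, h₀, h₁]
    split_ifs <;> rfl

/-- The oracle `h` together with an adversary `Eve`: the bit at the position `inr (j, φ)` is
`φ (k)`, where `k` is the result of `Eve j` for the oracle `h`. -/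
def withEve (Eve : I → DTree ι κ) (h : ι → Bool) : ι ⊕ (I × (κ → Bool)) → Bool :=
  Sum.elim h fun p => p.2 ((Eve p.1).eval h)

/-- Relative to the oracle and the adversary `Eve`, random functions are one-way: let a random
function `F : X → {0,1} ^ m` be written in the oracle at the positions `pos`, the other bits of the
oracle being arbitrary. Any quantum algorithm `R` which gets `F x` for a random `x`, with at most
`r` questions to the oracle and to the members `Eve j` with `q j ≤ Q`, finds `x'` with `F x' = F x`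
with probability at most `(2 + 8 r² (Q³ (Q + 1) + 1)) (2 ^ (-m) + 1 / |X|)`. -/
def OneWayDespite (Eve : I → DTree ι κ) (q : I → ℕ) : Prop :=
  ∀ (X : Type) [Fintype X] [DecidableEq X] [Nonempty X] (m : ℕ) (pos : X × Fin m → ι),
    Function.Injective pos → ∀ (h₀ : ι → Bool) (ρ : Type) [Fintype ρ]
    (R : (Fin m → Bool) → List (Step (ι ⊕ (I × (κ → Bool))) ρ)) (u : ρ → ℂ) (out : ρ → X)
    (r Q : ℕ), nsq u ≤ 1 → (∀ y, IsContr (R y)) → (∀ y, asks (R y) ≤ r) →
    (∀ y, Asked (fun i => ∀ j φ, i = Sum.inr (j, φ) → q j ≤ Q) (R y)) →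
    success (fun F => withEve Eve (write pos h₀ F)) R u out ≤
      (2 + 8 * r ^ 2 * (Q ^ 3 * (Q + 1) + 1)) * (1 / 2 ^ m + 1 / Fintype.card X)

theorem withEve_eq (Eve : I → DTree ι κ) (h : ι → Bool) :
    withEve Eve h = withTrees (fun p : I × (κ → Bool) => (Eve p.1).post p.2) h := by
  unfold withEve withTrees
  congr 1
  funext p
  rw [DTree.eval_post]

theorem oneWayDespite (Eve : I → DTree ι κ) (q : I → ℕ)
    (hq : ∀ j, (Eve j).depth ≤ q j ^ 3 * (q j + 1)) : OneWayDespite Eve q := by
  intro X _ _ _ m pos hp h₀ ρ _ R u out r Q hu hR hr hD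
  simp only [withEve_eq]
  have := one_way hp h₀ (fun p : I × (κ → Bool) => (Eve p.1).post p.2) (Q ^ 3 * (Q + 1)) r R u out
    hu hR hr fun y q' hq' s i hi => ?_
  · push_cast at this
    exact this
  · rintro ⟨j, φ⟩ rfl
    rw [DTree.depth_post]
    have h1 := hD y q' hq' s _ hi j φ rfl
    refine (hq j).trans ?_
    gcongr

/-- Key agreement. -/
theorem key_agreement {M : Type} {σ τ : ℕ → Type} [∀ k, Fintype (σ k)] [∀ k, Fintype (τ k)]
    [Finite κ] [Nonempty κ] (P : ∀ k, Protocol ι (σ k) (τ k) M κ) (n q : ℕ → ℕ)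
    (hq : ∀ k t a, t.length = n k → asks ((P k).stepsA t ++ (P k).keyA t a) ≤ q k ∧
      asks ((P k).stepsB t ++ (P k).keyB t a) ≤ q k)
    (hc : ∀ k h t a b, t.length = n k → a ≠ b → (P k).prob h t a b = 0) :
    ∃ Eve : ℕ × List M → DTree ι κ, (∀ j, (Eve j).depth ≤ q j.1 ^ 3 * (q j.1 + 1)) ∧
      (∀ k h t a b, t.length = n k → (P k).prob h t a b ≠ 0 →
        (Eve (k, t)).eval h = a ∧ (Eve (k, t)).eval h = b) ∧
      OneWayDespite Eve (fun j => q j.1) := by
  classical
  have hex : ∀ j : ℕ × List M, ∃ T : DTree ι κ, T.depth ≤ q j.1 ^ 3 * (q j.1 + 1) ∧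
      (j.2.length = n j.1 → ∀ h a b, (P j.1).prob h j.2 a b ≠ 0 → T.eval h = a ∧ T.eval h = b) := by
    rintro ⟨k, t⟩
    by_cases ht : t.length = n k
    · obtain ⟨T, hT, hQ⟩ := (P k).find_key t (q k) (q k) (fun a => (hq k t a ht).1)
        (fun a => (hq k t a ht).2) (fun h a b hab => hc k h t a b ht hab)
      exact ⟨T, hT.trans (le_of_eq (by ring)), fun _ => hQ⟩
    · obtain ⟨k₀⟩ := ‹Nonempty κ›
      exact ⟨.leaf k₀, by simp [DTree.depth], fun h => absurd h ht⟩
  choose Eve hdepth hEve using hex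
  exact ⟨Eve, hdepth, fun k h t a b ht hab => hEve (k, t) ht h a b hab,
    oneWayDespite Eve _ hdepth⟩

/-- Public-key encryption. -/
theorem public_key {σ τ : ℕ → Type} [∀ k, Fintype (σ k)] [∀ k, Fintype (τ k)]
    [Finite μ] [Nonempty μ] (S : ∀ k, PKE ι (σ k) (τ k) K C μ) (q : ℕ → ℕ)
    (hq : ∀ k pk m c, asks ((S k).gen pk ++ (S k).dec pk c m) ≤ q k ∧
      asks ((S k).enc pk m c) ≤ q k)
    (hc : ∀ k h pk m c m', m ≠ m' → (S k).prob h pk m c m' = 0) :
    ∃ Eve : ℕ × K × C → DTree ι μ, (∀ j, (Eve j).depth ≤ q j.1 ^ 3 * (q j.1 + 1)) ∧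
      (∀ k h pk m c m', (S k).prob h pk m c m' ≠ 0 → (Eve (k, pk, c)).eval h = m) ∧
      OneWayDespite Eve (fun j => q j.1) := by
  classical
  have hex : ∀ j : ℕ × K × C, ∃ T : DTree ι μ, T.depth ≤ q j.1 ^ 3 * (q j.1 + 1) ∧
      (∀ h m m', (S j.1).prob h j.2.1 m j.2.2 m' ≠ 0 → T.eval h = m) := by
    rintro ⟨k, pk, c⟩
    obtain ⟨T, hT, hQ⟩ := core (fun m' => (S k).gen pk ++ (S k).dec pk c m')
      (fun m => (S k).enc pk m c) (S k).initA (S k).initB (q k) (q k)
      (fun m => (hq k pk m c).1) (fun m => (hq k pk m c).2)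
      (fun h m' m hm => hc k h pk m c m' hm.symm)
    exact ⟨T, hT.trans (le_of_eq (by ring)), fun h m m' hm => (hQ h m' m hm).2⟩
  choose Eve hdepth hEve using hex
  exact ⟨Eve, hdepth, fun k h pk m c m' hm => hEve (k, pk, c) h m m' hm,
    oneWayDespite Eve _ hdepth⟩

end Pool.Agent.H822R2.KA
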