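import Pool.Agent.H822R2.KA.Main

/-!
# The hybrid argument for steps of a quantum computer
-/

set_option autoImplicit false

namespace Pool.Agent.H822R2.KA

open Finset

variable {ι σ : Type} [Fintype σ]

/-- the squared norm of a vector of amplitudes -/
noncomputable def nsq (v : σ → ℂ) : ℝ := ∑ s, ‖v s‖ ^ 2

/-- the norm of a vector of amplitudes -/
noncomputable def nrm (v : σ → ℂ) : ℝ := Real.sqrt (nsq v)

theorem nsq_nonneg (v : σ → ℂ) : 0 ≤ nsq v := Finset.sum_nonneg fun _ _ => by positivity

theorem nrm_eq (v : σ → ℂ) : nrm v = ‖(WithLp.toLp 2 v : EuclideanSpace ℂ σ)‖ := by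
  rw [EuclideanSpace.norm_eq]
  rfl

theorem nrm_nonneg (v : σ → ℂ) : 0 ≤ nrm v := Real.sqrt_nonneg _

theorem nrm_sq (v : σ → ℂ) : nrm v ^ 2 = nsq v := Real.sq_sqrt (nsq_nonneg v)

theorem nrm_add (v w : σ → ℂ) : nrm (fun s => v s + w s) ≤ nrm v + nrm w := by
  rw [nrm_eq, nrm_eq, nrm_eq]
  exact norm_add_le (WithLp.toLp 2 v : EuclideanSpace ℂ σ) (WithLp.toLp 2 w)

/-- All the linear maps of a list of steps are contractions (for instance unitary). -/
def IsContr (l : List (Step ι σ)) : Prop :=
  ∀ U, Step.lin U ∈ l → ∀ v : σ → ℂ, nsq (U.mulVec v) ≤ nsq v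

theorem norm_ask (h : ι → Bool) (q : σ → Option ι) (v : σ → ℂ) (s : σ) :
    ‖(Step.ask q).act h v s‖ = ‖v s‖ := by
  simp only [Step.act]
  rcases q s with _ | i
  · rfl
  · simp only
    split_ifs
    · exact norm_neg _
    · rfl

theorem nsq_ask (h : ι → Bool) (q : σ → Option ι) (v : σ → ℂ) :
    nsq ((Step.ask q).act h v) = nsq v := by
  unfold nsq
  exact Finset.sum_congr rfl fun s _ => by rw [norm_ask]

theorem act_sub (h : ι → Bool) (a : Step ι σ) (v w : σ → ℂ) :
    (fun s => a.act h v s - a.act h w s) = a.act h (fun s => v s - w s) := by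
  cases a with
  | lin U =>
    funext s
    simp only [Step.act, Matrix.mulVec, dotProduct, ← Finset.sum_sub_distrib, mul_sub]
  | ask q =>
    funext s
    simp only [Step.act]
    rcases q s with _ | i
    · rfl
    · simp only
      split_ifs
      · ring
      · rfl

theorem nsq_act_le (h : ι → Bool) (a : Step ι σ) (l : List (Step ι σ)) (hl : IsContr (a :: l))
    (v : σ → ℂ) : nsq (a.act h v) ≤ nsq v := by
  cases a with
  | lin U => exact hl U (List.mem_cons_self) v
  | ask q => exact (nsq_ask h q v).le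

theorem IsContr.tail {a : Step ι σ} {l : List (Step ι σ)} (hl : IsContr (a :: l)) : IsContr l :=
  fun U hU => hl U (List.mem_cons_of_mem _ hU)

theorem nsq_run_le (h : ι → Bool) : ∀ (l : List (Step ι σ)) (v : σ → ℂ), IsContr l →
    nsq (run h l v) ≤ nsq v
  | [], _, _ => le_rfl
  | a :: l, v, hl => (nsq_run_le h l _ hl.tail).trans (nsq_act_le h a l hl v)

/-- the weight of the questions on which two oracles differ -/
noncomputable def gw (h h' : ι → Bool) (q : σ → Option ι) (v : σ → ℂ) : ℝ :=
  ∑ s, match q s with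
    | none => 0
    | some i => if h i = h' i then 0 else ‖v s‖ ^ 2

theorem gw_nonneg (h h' : ι → Bool) (q : σ → Option ι) (v : σ → ℂ) : 0 ≤ gw h h' q v := by
  refine Finset.sum_nonneg fun s _ => ?_
  rcases q s with _ | i
  · exact le_rfl
  · simp only
    split_ifs <;> positivity

/-- the weight of the questions of a list of steps on which two oracles differ -/
noncomputable def dev (h h' : ι → Bool) : List (Step ι σ) → (σ → ℂ) → ℝ
  | [], _ => 0
  | .lin U :: l, v => dev h h' l (U.mulVec v)
  | .ask q :: l, v => gw h h' q v + dev h h' l ((Step.ask q).act h v)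

theorem dev_nonneg (h h' : ι → Bool) : ∀ (l : List (Step ι σ)) (v : σ → ℂ), 0 ≤ dev h h' l v
  | [], _ => le_rfl
  | .lin _ :: l, _ => dev_nonneg h h' l _
  | .ask _ :: l, _ => add_nonneg (gw_nonneg _ _ _ _) (dev_nonneg h h' l _)

theorem one_step (h h' : ι → Bool) (q : σ → Option ι) (v : σ → ℂ) :
    nsq (fun s => (Step.ask q).act h v s - (Step.ask q).act h' v s) = 4 * gw h h' q v := by
  unfold nsq gw
  rw [Finset.mul_sum]
  refine Finset.sum_congr rfl fun s _ => ?_
  simp only [Step.act]
  rcases q s with _ | i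
  · simp
  · simp only
    rcases Bool.eq_false_or_eq_true (h i) with h1 | h1 <;>
      rcases Bool.eq_false_or_eq_true (h' i) with h2 | h2
    · simp [h1, h2]
    · simp only [h1, h2, if_true, Bool.false_eq_true, if_false, Bool.true_eq_false]
      rw [show -v s - v s = -(2 * v s) by ring, norm_neg, norm_mul, Complex.norm_ofNat]
      ring
    · simp only [h1, h2, if_true, Bool.false_eq_true, if_false]
      rw [show v s - -v s = 2 * v s by ring, norm_mul, Complex.norm_ofNat]
      ring
    · simp [h1, h2]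

theorem sqrt_key {n d S : ℝ} (hn : 0 ≤ n) (hd : 0 ≤ d) (hS : 0 ≤ S) :
    Real.sqrt d + Real.sqrt (n * S) ≤ Real.sqrt ((n + 1) * (d + S)) := by
  apply Real.le_sqrt_of_sq_le
  have h1 := Real.sq_sqrt hd
  have h2 := Real.sq_sqrt (mul_nonneg hn hS)
  have h3 : Real.sqrt d * Real.sqrt (n * S) = Real.sqrt (n * d) * Real.sqrt S := by
    rw [← Real.sqrt_mul hd, ← Real.sqrt_mul (mul_nonneg hn hd)]
    congr 1
    ring
  have h4 := Real.sq_sqrt (mul_nonneg hn hd)
  have h5 := Real.sq_sqrt hS
  nlinarith [sq_nonneg (Real.sqrt (n * d) - Real.sqrt S)]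

/-- the hybrid argument -/
theorem hybrid (h h' : ι → Bool) : ∀ (l : List (Step ι σ)) (v w : σ → ℂ), IsContr l →
    nrm (fun s => run h l v s - run h' l w s) ≤
      nrm (fun s => v s - w s) + 2 * Real.sqrt (asks l * dev h h' l v)
  | [], v, w, _ => by simp [run, asks, dev]
  | .lin U :: l, v, w, hl => by
    have h1 := hybrid h h' l (U.mulVec v) (U.mulVec w) hl.tail
    have h2 : nrm (fun s => U.mulVec v s - U.mulVec w s) ≤ nrm (fun s => v s - w s) := by
      have := act_sub h (Step.lin U) v w
      simp only [Step.act] at this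
      rw [this]
      exact Real.sqrt_le_sqrt (hl U List.mem_cons_self _)
    show nrm (fun s => run h l (U.mulVec v) s - run h' l (U.mulVec w) s) ≤
      nrm (fun s => v s - w s) + 2 * Real.sqrt (asks l * dev h h' l (U.mulVec v))
    linarith
  | .ask q :: l, v, w, hl => by
    have h1 := hybrid h h' l ((Step.ask q).act h v) ((Step.ask q).act h' w) hl.tail
    have h2 : nrm (fun s => (Step.ask q).act h v s - (Step.ask q).act h' w s) ≤
        nrm (fun s => v s - w s) + 2 * Real.sqrt (gw h h' q v) := by
      have h3 : (fun s => (Step.ask q).act h v s - (Step.ask q).act h' w s) =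
          fun s => ((Step.ask q).act h' (fun s => v s - w s) s) +
            ((Step.ask q).act h v s - (Step.ask q).act h' v s) := by
        rw [← act_sub]
        funext s
        ring
      rw [h3]
      refine (nrm_add _ _).trans ?_
      refine add_le_add (le_of_eq ?_) (le_of_eq ?_)
      · unfold nrm
        rw [nsq_ask]
      · unfold nrm
        rw [one_step, show (4 : ℝ) = 2 ^ 2 by norm_num, Real.sqrt_mul (by norm_num),
          Real.sqrt_sq (by norm_num)]
    have h6 := sqrt_key (n := asks l) (Nat.cast_nonneg _)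
      (gw_nonneg h h' q v) (dev_nonneg h h' l ((Step.ask q).act h v))
    show nrm (fun s => run h l ((Step.ask q).act h v) s - run h' l ((Step.ask q).act h' w) s) ≤
      nrm (fun s => v s - w s) + 2 * Real.sqrt (((asks l + 1 : ℕ) : ℝ) *
        (gw h h' q v + dev h h' l ((Step.ask q).act h v)))
    push_cast
    linarith

open scoped Classical in
theorem sum_gw {X : Type*} (I : Finset X) (h : ι → Bool) (h' : X → ι → Bool) (c : ℕ)
    (q : σ → Option ι)
    (hc : ∀ s i, q s = some i → (I.filter (fun x => h' x i ≠ h i)).card ≤ c)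
    (v : σ → ℂ) : ∑ x ∈ I, gw h (h' x) q v ≤ c * nsq v := by
  unfold gw nsq
  rw [sum_comm, mul_sum]
  refine sum_le_sum fun s _ => ?_
  rcases hq : q s with _ | i
  · simp only [sum_const_zero]
    positivity
  · simp only
    have h1 : ∑ x ∈ I, (if h i = h' x i then (0 : ℝ) else ‖v s‖ ^ 2) =
        ((I.filter (fun x => h' x i ≠ h i)).card : ℝ) * ‖v s‖ ^ 2 := by
      rw [card_filter, Nat.cast_sum, sum_mul]
      refine sum_congr rfl fun x _ => ?_
      by_cases h2 : h i = h' x i
      · rw [if_pos h2, if_neg (fun h3 => h3 h2.symm)]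
        simp
      · rw [if_neg h2, if_pos (fun h3 => h2 h3.symm)]
        simp
    rw [h1]
    exact mul_le_mul_of_nonneg_right (Nat.cast_le.2 (hc s i hq)) (by positivity)

/-- the positions of the questions of a list of steps have a property -/
def Asked (Q : ι → Prop) (l : List (Step ι σ)) : Prop :=
  ∀ q, Step.ask q ∈ l → ∀ s i, q s = some i → Q i

open scoped Classical in
theorem sum_dev {X : Type*} (I : Finset X) (h : ι → Bool) (h' : X → ι → Bool) (c : ℕ) :
    ∀ (l : List (Step ι σ)) (v : σ → ℂ), IsContr l →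
    Asked (fun i => (I.filter (fun x => h' x i ≠ h i)).card ≤ c) l →
    ∑ x ∈ I, dev h (h' x) l v ≤ asks l * c * nsq v
  | [], v, _, _ => by simp [dev, asks]
  | .lin U :: l, v, hl, hc => by
    have h1 := sum_dev I h h' c l (U.mulVec v) hl.tail
      fun q hq => hc q (List.mem_cons_of_mem _ hq)
    have h2 : (asks l * c * nsq (U.mulVec v) : ℝ) ≤ asks l * c * nsq v :=
      mul_le_mul_of_nonneg_left (hl U List.mem_cons_self _) (by positivity)
    exact h1.trans h2
  | .ask q :: l, v, hl, hc => by
    have h1 := sum_gw I h h' c q (fun s i hi => hc q List.mem_cons_self s i hi) v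
    have h2 := sum_dev I h h' c l ((Step.ask q).act h v) hl.tail
      fun q hq => hc q (List.mem_cons_of_mem _ hq)
    rw [nsq_ask] at h2
    show ∑ x ∈ I, (gw h (h' x) q v + dev h (h' x) l ((Step.ask q).act h v)) ≤
      ((asks l + 1 : ℕ) : ℝ) * c * nsq v
    rw [sum_add_distrib]
    push_cast
    linarith

/-- the probability that the measurement of the final state gives `x` -/
noncomputable def outp {X : Type} [DecidableEq X] (h : ι → Bool) (l : List (Step ι σ)) (v : σ → ℂ)
    (out : σ → X) (x : X) : ℝ :=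
  ∑ s, if out s = x then ‖run h l v s‖ ^ 2 else 0

theorem outp_nonneg {X : Type} [DecidableEq X] (h : ι → Bool) (l : List (Step ι σ)) (v : σ → ℂ)
    (out : σ → X) (x : X) : 0 ≤ outp h l v out x :=
  Finset.sum_nonneg fun s _ => by split_ifs <;> positivity

theorem sum_outp_le {X : Type} [DecidableEq X] (h : ι → Bool) (l : List (Step ι σ)) (v : σ → ℂ)
    (out : σ → X) (hl : IsContr l) (I : Finset X) : ∑ x ∈ I, outp h l v out x ≤ nsq v := by
  refine le_trans ?_ (nsq_run_le h l v hl)
  unfold outp nsq
  rw [Finset.sum_comm]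
  refine Finset.sum_le_sum fun s _ => ?_
  rw [Finset.sum_ite_eq]
  split_ifs
  · exact le_rfl
  · positivity

theorem outp_close {X : Type} [DecidableEq X] (h h' : ι → Bool) (l : List (Step ι σ)) (v : σ → ℂ)
    (out : σ → X) (hl : IsContr l) (x : X) :
    outp h' l v out x ≤ 2 * outp h l v out x + 8 * (asks l * dev h h' l v) := by
  have h1 := hybrid h h' l v v hl
  have h2 : nrm (fun s => v s - v s) = 0 := by
    unfold nrm nsq
    simp
  rw [h2, zero_add] at h1
  have hd := dev_nonneg h h' l v
  have h3 : nsq (fun s => run h l v s - run h' l v s) ≤ 4 * (asks l * dev h h' l v) := by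
    have h4 := pow_le_pow_left₀ (nrm_nonneg _) h1 2
    rw [nrm_sq, mul_pow, Real.sq_sqrt (by positivity)] at h4
    linarith
  have h4 : outp h' l v out x ≤ 2 * outp h l v out x +
      2 * nsq (fun s => run h l v s - run h' l v s) := by
    unfold outp nsq
    rw [Finset.mul_sum, Finset.mul_sum, ← Finset.sum_add_distrib]
    refine Finset.sum_le_sum fun s _ => ?_
    have h5 : ‖run h' l v s‖ ≤ ‖run h l v s‖ + ‖run h l v s - run h' l v s‖ := by
      have := norm_sub_le (run h l v s) (run h l v s - run h' l v s)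
      rwa [sub_sub_cancel] at this
    have h6 := norm_nonneg (run h' l v s)
    have h7 : ‖run h' l v s‖ ^ 2 ≤ 2 * ‖run h l v s‖ ^ 2 +
        2 * ‖run h l v s - run h' l v s‖ ^ 2 := by
      nlinarith [sq_nonneg (‖run h l v s‖ - ‖run h l v s - run h' l v s‖),
        pow_le_pow_left₀ h6 h5 2]
    split_ifs
    · exact h7
    · positivity
  linarith

open scoped Classical in
theorem sum_outp_hyb {X : Type} [Fintype X] [DecidableEq X] (h : ι → Bool) (h' : X → ι → Bool)
    (c r : ℕ) (l : List (Step ι σ)) (v : σ → ℂ) (out : σ → X) (hl : IsContr l)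
    (hc : Asked (fun i => ((Finset.univ : Finset X).filter (fun x => h' x i ≠ h i)).card ≤ c) l)
    (hr : asks l ≤ r) (hv : nsq v ≤ 1) :
    ∑ x : X, outp (h' x) l v out x ≤ 2 + 8 * r ^ 2 * c := by
  have h1 := sum_dev Finset.univ h h' c l v hl hc
  have h2 : ∑ x : X, outp (h' x) l v out x ≤ ∑ x : X, (2 * outp h l v out x +
      8 * (asks l * dev h (h' x) l v)) :=
    Finset.sum_le_sum fun x _ => outp_close h (h' x) l v out hl x
  rw [Finset.sum_add_distrib, ← Finset.mul_sum, ← Finset.mul_sum, ← Finset.mul_sum] at h2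
  have h3 := sum_outp_le h l v out hl Finset.univ
  have h4 : (asks l : ℝ) * ∑ x : X, dev h (h' x) l v ≤ asks l * (asks l * c * nsq v) :=
    mul_le_mul_of_nonneg_left h1 (by positivity)
  have hr' : (asks l : ℝ) ≤ r := Nat.cast_le.2 hr
  have h5 : (asks l : ℝ) * (asks l * c * nsq v) ≤ r * (r * c * 1) := by
    have := nsq_nonneg v
    gcongr
  nlinarith

end Pool.Agent.H822R2.KA
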