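import Pool.Agent.H822R2.KA.Tree

/-!
# No perfectly complete key agreement over a classical channel from any oracle

Any set of positions (finite or not).
-/

set_option autoImplicit false

namespace Pool.Agent.H822R2.KA

open Finset Pool.Agent.H627R2.Pcc

variable {ι σ τ M κ : Type}

/-- a decision tree over another set of positions -/
def DTree.mapPos {ι' : Type} (f : ι' → ι) : DTree ι' κ → DTree ι κ
  | .leaf k => .leaf k
  | .node i t₀ t₁ => .node (f i) (t₀.mapPos f) (t₁.mapPos f)

theorem DTree.depth_mapPos {ι' : Type} (f : ι' → ι) (T : DTree ι' κ) :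
    (T.mapPos f).depth = T.depth := by
  induction T with
  | leaf k => rfl
  | node i t₀ t₁ h₀ h₁ => simp only [DTree.mapPos, DTree.depth, h₀, h₁]

theorem DTree.eval_mapPos {ι' : Type} (f : ι' → ι) (h : ι → Bool) (T : DTree ι' κ) :
    (T.mapPos f).eval h = T.eval (fun i => h (f i)) := by
  induction T with
  | leaf k => rfl
  | node i t₀ t₁ h₀ h₁ =>
    simp only [DTree.mapPos, DTree.eval, h₀, h₁]

/-- the positions of the questions of a list of steps lie in `S` -/
def Within (S : Set ι) : List (Step ι σ) → Prop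
  | [] => True
  | .lin _ :: l => Within S l
  | .ask q :: l => (∀ s i, q s = some i → i ∈ S) ∧ Within S l

theorem Within.mono {S S' : Set ι} (h : S ⊆ S') : ∀ {l : List (Step ι σ)}, Within S l →
    Within S' l
  | [], _ => trivial
  | .lin _ :: l, hl => Within.mono (l := l) h hl
  | .ask _ :: l, hl => ⟨fun s i hi => h (hl.1 s i hi), Within.mono (l := l) h hl.2⟩

theorem exists_within [Finite σ] : ∀ l : List (Step ι σ), ∃ S : Set ι, S.Finite ∧ Within S l
  | [] => ⟨∅, Set.finite_empty, trivial⟩
  | .lin _ :: l => by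
    obtain ⟨S, hS, hl⟩ := exists_within l
    exact ⟨S, hS, hl⟩
  | .ask q :: l => by
    obtain ⟨S, hS, hl⟩ := exists_within l
    refine ⟨S ∪ {i | ∃ s, q s = some i}, hS.union ?_, fun s i hi => Or.inr ⟨s, hi⟩,
      Within.mono Set.subset_union_left hl⟩
    have : {i | ∃ s, q s = some i} ⊆ some ⁻¹' (Set.range q) := by
      rintro i ⟨s, hs⟩
      exact ⟨s, hs⟩
    exact ((Set.finite_range q).preimage (Option.some_injective _).injOn).subset this

open Classical in
/-- a step, asking only for positions in `S` -/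
noncomputable def Step.restr (S : Set ι) : Step ι σ → Step S σ
  | .lin U => .lin U
  | .ask q => .ask fun s => match q s with
    | none => none
    | some i => if h : i ∈ S then some ⟨i, h⟩ else none

theorem asks_restr (S : Set ι) : ∀ l : List (Step ι σ), asks (l.map (Step.restr S)) = asks l
  | [] => rfl
  | .lin _ :: l => asks_restr S l
  | .ask _ :: l => by
    show asks (l.map (Step.restr S)) + 1 = asks l + 1
    rw [asks_restr S l]

theorem run_restr [Fintype σ] (S : Set ι) (h : ι → Bool) : ∀ (l : List (Step ι σ)) (v : σ → ℂ),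
    Within S l → run (fun i : S => h i) (l.map (Step.restr S)) v = run h l v
  | [], _, _ => rfl
  | .lin U :: l, v, hl => run_restr S h l _ hl
  | .ask q :: l, v, hl => by
    show run (fun i : S => h i) (l.map (Step.restr S)) _ = run h l _
    have : (Step.restr S (.ask q)).act (fun i : S => h i) v = (Step.ask q).act h v := by
      funext s
      simp only [Step.restr, Step.act]
      rcases hq : q s with _ | i
      · rfl
      · simp only [dif_pos (hl.1 s i hq)]
    rw [this]
    exact run_restr S h l _ hl.2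

/-- The core statement: two parties end with incompatible results with probability zero, so a
decision tree finds the common result. -/
theorem core [Fintype σ] [Fintype τ] [Finite κ] [Nonempty κ] (LA : κ → List (Step ι σ))
    (LB : κ → List (Step ι τ)) (u : σ → ℂ) (v : τ → ℂ) (qA qB : ℕ) (hA : ∀ a, asks (LA a) ≤ qA)
    (hB : ∀ b, asks (LB b) ≤ qB)
    (hc : ∀ (h : ι → Bool) (a b : κ), a ≠ b →
      (∑ s, ‖run h (LA a) u s‖ ^ 2) * ∑ s, ‖run h (LB b) v s‖ ^ 2 = 0) :
    ∃ T : DTree ι κ, T.depth ≤ qB ^ 2 * (qA * (qA + 1)) ∧ ∀ (h : ι → Bool) (a b : κ),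
      (∑ s, ‖run h (LA a) u s‖ ^ 2) * ∑ s, ‖run h (LB b) v s‖ ^ 2 ≠ 0 →
      T.eval h = a ∧ T.eval h = b := by
  classical
  choose SA hSA hWA using fun a => exists_within (LA a)
  choose SB hSB hWB using fun b => exists_within (LB b)
  let S : Set ι := (⋃ a, SA a) ∪ ⋃ b, SB b
  have hSfin : S.Finite := (Set.finite_iUnion hSA).union (Set.finite_iUnion hSB)
  have : Fintype S := hSfin.fintype
  have hWA' : ∀ a, Within S (LA a) := fun a =>
    (hWA a).mono ((Set.subset_iUnion SA a).trans Set.subset_union_left)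
  have hWB' : ∀ b, Within S (LB b) := fun b =>
    (hWB b).mono ((Set.subset_iUnion SB b).trans Set.subset_union_right)
  let F : κ → Set ((S → ZMod 2) → ℂ) := fun a =>
    {f | ∃ s, f = fun x => run (tb x) ((LA a).map (Step.restr S)) u s}
  let G : κ → Set ((S → ZMod 2) → ℂ) := fun b =>
    {g | ∃ s, g = fun x => run (tb x) ((LB b).map (Step.restr S)) v s}
  -- the extension of a partial oracle
  let ext : (S → ZMod 2) → ι → Bool := fun x i => if hi : i ∈ S then tb x ⟨i, hi⟩ else false
  have hext : ∀ x : S → ZMod 2, (fun i : S => ext x i) = tb x := by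
    intro x
    funext i
    simp only [ext, dif_pos i.2]
  have hrA : ∀ (x : S → ZMod 2) (a : κ), run (tb x) ((LA a).map (Step.restr S)) u =
      run (ext x) (LA a) u := by
    intro x a
    rw [← hext x]
    exact run_restr S (ext x) (LA a) u (hWA' a)
  have hrB : ∀ (x : S → ZMod 2) (b : κ), run (tb x) ((LB b).map (Step.restr S)) v =
      run (ext x) (LB b) v := by
    intro x b
    rw [← hext x]
    exact run_restr S (ext x) (LB b) v (hWB' b)
  have hdis : ∀ a b, a ≠ b → ∀ f ∈ F a, ∀ g ∈ G b, ∀ x, f x * g x = 0 := by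
    rintro a b hab f ⟨s, rfl⟩ g ⟨s', rfl⟩ x
    have h := hc (ext x) a b hab
    simp only [hrA, hrB]
    rcases mul_eq_zero.1 h with h | h
    · have := (Finset.sum_eq_zero_iff_of_nonneg fun s _ => by positivity).1 h s (Finset.mem_univ s)
      have h0 : run (ext x) (LA a) u s = 0 := by simpa using this
      rw [h0, zero_mul]
    · have := (Finset.sum_eq_zero_iff_of_nonneg fun s _ => by positivity).1 h s'
        (Finset.mem_univ s')
      have h0 : run (ext x) (LB b) v s' = 0 := by simpa using this
      rw [h0, mul_zero]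
  have hF : ∀ b, ∀ f ∈ F b, DegLE qA f := by
    rintro a f ⟨s, rfl⟩
    refine DegLE.mono ?_ (degLE_run ((LA a).map (Step.restr S)) (d := 0) (v := fun _ => u)
      (fun s => degLE_const 0 (u s)) s)
    rw [asks_restr, zero_add]
    exact hA a
  have hG : ∀ b, ∀ g ∈ G b, DegLE qB g := by
    rintro b g ⟨s, rfl⟩
    refine DegLE.mono ?_ (degLE_run ((LB b).map (Step.restr S)) (d := 0) (v := fun _ => v)
      (fun s => degLE_const 0 (v s)) s)
    rw [asks_restr, zero_add]
    exact hB b
  obtain ⟨T, hT, hQ⟩ := tree_exists hdis hF hG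
  refine ⟨T.mapPos Subtype.val, by rwa [DTree.depth_mapPos], fun h a b hab => ?_⟩
  have heq : a = b := by
    by_contra hne
    exact hab (hc h a b hne)
  subst heq
  rw [and_self, DTree.eval_mapPos]
  let x : S → ZMod 2 := fun i => if h i then 1 else 0
  have hx : tb x = fun i : S => h i := by
    funext i
    simp only [tb, x]
    by_cases hi : h i = true
    · simp [hi]
    · simp only [hi]
      simp
  have h1 := left_ne_zero_of_mul hab
  have h2 := right_ne_zero_of_mul hab
  obtain ⟨s, -, hs⟩ := Finset.exists_ne_zero_of_sum_ne_zero h1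
  obtain ⟨s', -, hs'⟩ := Finset.exists_ne_zero_of_sum_ne_zero h2
  rw [← hx]
  refine hQ x a ⟨_, ⟨s, rfl⟩, ?_⟩ ⟨_, ⟨s', rfl⟩, ?_⟩
  · simp only [hx]
    rw [run_restr S h (LA a) u (hWA' a)]
    intro h0
    exact hs (by rw [h0]; simp)
  · simp only [hx]
    rw [run_restr S h (LB a) v (hWB' a)]
    intro h0
    exact hs' (by rw [h0]; simp)

/-- Key agreement: for every transcript. -/
theorem Protocol.find_key [Fintype σ] [Fintype τ] [Finite κ] [Nonempty κ]
    (P : Protocol ι σ τ M κ) (t : List M) (qA qB : ℕ)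
    (hA : ∀ a, asks (P.stepsA t ++ P.keyA t a) ≤ qA)
    (hB : ∀ b, asks (P.stepsB t ++ P.keyB t b) ≤ qB)
    (hc : ∀ (h : ι → Bool) (a b : κ), a ≠ b → P.prob h t a b = 0) :
    ∃ T : DTree ι κ, T.depth ≤ qB ^ 2 * (qA * (qA + 1)) ∧ ∀ (h : ι → Bool) (a b : κ),
      P.prob h t a b ≠ 0 → T.eval h = a ∧ T.eval h = b :=
  core (fun a => P.stepsA t ++ P.keyA t a) (fun b => P.stepsB t ++ P.keyB t b) P.initA P.initB
    qA qB hA hB hc

end Pool.Agent.H822R2.KA
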