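import Pool.Agent.H822R2.KA.Final

/-!
# Oblivious transfer between quantum parties with classical communication
-/

set_option autoImplicit false

namespace Pool.Agent.H822R2.KA

open Finset Pool.Agent.H627R2.Pcc

variable {ι σ τ M κ O : Type}

/-- The behaviour of a party with quantum memory. -/
structure Party (ι σ M O : Type) : Type where
  /-- the initial state -/
  init : σ → ℂ
  /-- `move t m`: the steps when the party sends the message `m` after the transcript `t` -/
  move : List M → M → List (Step ι σ)
  /-- `out t y`: the steps at the end when the output is `y` -/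
  out : List M → O → List (Step ι σ)

/-- All steps of a party before the output, for a given transcript (the newest message first);
`mine t` tells if it is the turn of the party after the transcript `t`. -/
def Party.steps (p : Party ι σ M O) (mine : List M → Bool) : List M → List (Step ι σ)
  | [] => []
  | m :: t => p.steps mine t ++ (if mine t then p.move t m else [])

/-- The party applies isometries and complete measurements: the probabilities of the possible
messages, and of the possible outputs, add up to one. -/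
structure Party.Normal [Fintype σ] [Fintype M] [Fintype O] (p : Party ι σ M O) : Prop where
  init : nsq p.init = 1
  move : ∀ (h : ι → Bool) (t : List M) (v : σ → ℂ), ∑ m, nsq (run h (p.move t m) v) = nsq v
  out : ∀ (h : ι → Bool) (t : List M) (v : σ → ℂ), ∑ y, nsq (run h (p.out t y) v) = nsq v

/-- A protocol for oblivious transfer: the sender has two bits, the receiver has one bit, the
choice. -/
structure OT (ι σ τ M : Type) : Type where
  /-- does the sender send the next message? -/
  turn : List M → Bool
  /-- the sender, for the two bits -/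
  sender : Bool × Bool → Party ι σ M Unit
  /-- the receiver, for the choice -/
  receiver : Bool → Party ι τ M Bool

/-- all steps of the sender -/
def OT.stepsS (P : OT ι σ τ M) (b : Bool × Bool) (t : List M) : List (Step ι σ) :=
  (P.sender b).steps P.turn t

/-- all steps of the receiver before the output -/
def OT.stepsR (P : OT ι σ τ M) (c : Bool) (t : List M) : List (Step ι τ) :=
  (P.receiver c).steps (fun t => !P.turn t) t

/-- The probability of the transcript `t`, for the bits `b` of the sender and the choice `c`. -/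
noncomputable def OT.prob [Fintype σ] [Fintype τ] (P : OT ι σ τ M) (h : ι → Bool)
    (b : Bool × Bool) (c : Bool) (t : List M) : ℝ :=
  nsq (run h (P.stepsS b t) (P.sender b).init) * nsq (run h (P.stepsR c t) (P.receiver c).init)

/-- The probability of the transcript `t` and the output `y` of the receiver. -/
noncomputable def OT.probOut [Fintype σ] [Fintype τ] (P : OT ι σ τ M) (h : ι → Bool)
    (b : Bool × Bool) (c : Bool) (t : List M) (y : Bool) : ℝ :=
  nsq (run h (P.stepsS b t) (P.sender b).init) *
    nsq (run h (P.stepsR c t ++ (P.receiver c).out t y) (P.receiver c).init)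

/-- one of the two bits -/
def pick (c : Bool) (b : Bool × Bool) : Bool := if c then b.2 else b.1

/-- The probability that `E` finds in the transcript the bit number `i` of the sender, for random
bits of the sender and the choice `c` of the receiver, in `n` rounds. -/
noncomputable def OT.finds [Fintype σ] [Fintype τ] [Fintype M] (P : OT ι σ τ M) (n : ℕ)
    (h : ι → Bool) (c : Bool) (E : List M → Bool) (i : Bool) : ℝ :=
  (∑ b : Bool × Bool, ∑ t : Fin n → M,
    if E (List.ofFn t) = pick i b then P.prob h b c (List.ofFn t) else 0) / 4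

theorem run_append [Fintype σ] (h : ι → Bool) : ∀ (l l' : List (Step ι σ)) (v : σ → ℂ),
    run h (l ++ l') v = run h l' (run h l v)
  | [], _, _ => rfl
  | a :: l, l', v => run_append h l l' (a.act h v)

theorem sum_ofFn [Fintype M] (n : ℕ) (f : List M → ℝ) :
    ∑ t : Fin (n + 1) → M, f (List.ofFn t) = ∑ t : Fin n → M, ∑ m, f (m :: List.ofFn t) := by
  rw [← (Fin.consEquiv (fun _ : Fin (n + 1) => M)).sum_comp, Fintype.sum_prod_type,
    Finset.sum_comm]
  refine Finset.sum_congr rfl fun t _ => Finset.sum_congr rfl fun m _ => ?_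
  congr 1
  simp [Fin.consEquiv, List.ofFn_succ]

theorem OT.sum_prob [Fintype σ] [Fintype τ] [Fintype M] (P : OT ι σ τ M)
    (hS : ∀ b, (P.sender b).Normal) (hR : ∀ c, (P.receiver c).Normal) (h : ι → Bool)
    (b : Bool × Bool) (c : Bool) : ∀ n : ℕ, ∑ t : Fin n → M, P.prob h b c (List.ofFn t) = 1
  | 0 => by
    simp [OT.prob, OT.stepsS, OT.stepsR, Party.steps, run, (hS b).init, (hR c).init]
  | n + 1 => by
    rw [sum_ofFn, ← OT.sum_prob P hS hR h b c n]
    refine Finset.sum_congr rfl fun t _ => ?_
    simp only [OT.prob, OT.stepsS, OT.stepsR, Party.steps, run_append]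
    by_cases hb : P.turn (List.ofFn t) = true
    · have hb' : ¬ ((!P.turn (List.ofFn t)) = true) := by simp [hb]
      simp only [if_pos hb, if_neg hb', run, ← Finset.sum_mul]
      rw [(hS b).move]
    · have hb' : (!P.turn (List.ofFn t)) = true := by simpa using hb
      simp only [if_neg hb, if_pos hb', run, ← Finset.mul_sum]
      rw [(hR c).move]

/-- The core statement, with several behaviours for each result. -/
theorem core₂ {α β : Type} [Finite α] [Finite β] [Fintype σ] [Fintype τ] [Nonempty κ]
    (kA : α → κ) (kB : β → κ) (LA : α → List (Step ι σ)) (LB : β → List (Step ι τ))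
    (u : α → σ → ℂ) (v : β → τ → ℂ) (qA qB : ℕ) (hA : ∀ a, asks (LA a) ≤ qA)
    (hB : ∀ b, asks (LB b) ≤ qB)
    (hc : ∀ (h : ι → Bool) (a : α) (b : β), kA a ≠ kB b →
      nsq (run h (LA a) (u a)) * nsq (run h (LB b) (v b)) = 0) :
    ∃ T : DTree ι κ, T.depth ≤ qB ^ 2 * (qA * (qA + 1)) ∧ ∀ (h : ι → Bool) (a : α) (b : β),
      nsq (run h (LA a) (u a)) * nsq (run h (LB b) (v b)) ≠ 0 →
      T.eval h = kA a ∧ T.eval h = kB b := by
  classical
  choose SA hSA hWA using fun a => exists_within (LA a)
  choose SB hSB hWB using fun b => exists_within (LB b)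
  let S : Set ι := (⋃ a, SA a) ∪ ⋃ b, SB b
  have hSfin : S.Finite := (Set.finite_iUnion hSA).union (Set.finite_iUnion hSB)
  have : Fintype S := hSfin.fintype
  have hWA' : ∀ a, Within S (LA a) := fun a =>
    (hWA a).mono ((Set.subset_iUnion SA a).trans Set.subset_union_left)
  have hWB' : ∀ b, Within S (LB b) := fun b =>
    (hWB b).mono ((Set.subset_iUnion SB b).trans Set.subset_union_right)
  let F : κ → Set ((S → ZMod 2) → ℂ) := fun k =>
    {f | ∃ a s, kA a = k ∧ f = fun x => run (tb x) ((LA a).map (Step.restr S)) (u a) s}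
  let G : κ → Set ((S → ZMod 2) → ℂ) := fun k =>
    {g | ∃ b s, kB b = k ∧ g = fun x => run (tb x) ((LB b).map (Step.restr S)) (v b) s}
  let ext : (S → ZMod 2) → ι → Bool := fun x i => if hi : i ∈ S then tb x ⟨i, hi⟩ else false
  have hext : ∀ x : S → ZMod 2, (fun i : S => ext x i) = tb x := by
    intro x
    funext i
    simp only [ext, dif_pos i.2]
  have hrA : ∀ (x : S → ZMod 2) (a : α), run (tb x) ((LA a).map (Step.restr S)) (u a) =
      run (ext x) (LA a) (u a) := by
    intro x a
    rw [← hext x]
    exact run_restr S (ext x) (LA a) (u a) (hWA' a)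
  have hrB : ∀ (x : S → ZMod 2) (b : β), run (tb x) ((LB b).map (Step.restr S)) (v b) =
      run (ext x) (LB b) (v b) := by
    intro x b
    rw [← hext x]
    exact run_restr S (ext x) (LB b) (v b) (hWB' b)
  have hdis : ∀ k l, k ≠ l → ∀ f ∈ F k, ∀ g ∈ G l, ∀ x, f x * g x = 0 := by
    rintro k l hkl f ⟨a, s, rfl, rfl⟩ g ⟨b, s', rfl, rfl⟩ x
    have h := hc (ext x) a b hkl
    simp only [hrA, hrB]
    rcases mul_eq_zero.1 h with h | h
    · have := (Finset.sum_eq_zero_iff_of_nonneg fun s _ => by positivity).1 h s (Finset.mem_univ s)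
      have h0 : run (ext x) (LA a) (u a) s = 0 := by simpa using this
      rw [h0, zero_mul]
    · have := (Finset.sum_eq_zero_iff_of_nonneg fun s _ => by positivity).1 h s'
        (Finset.mem_univ s')
      have h0 : run (ext x) (LB b) (v b) s' = 0 := by simpa using this
      rw [h0, mul_zero]
  have hF : ∀ k, ∀ f ∈ F k, DegLE qA f := by
    rintro k f ⟨a, s, -, rfl⟩
    refine DegLE.mono ?_ (degLE_run ((LA a).map (Step.restr S)) (d := 0) (v := fun _ => u a)
      (fun s => degLE_const 0 (u a s)) s)
    rw [asks_restr, zero_add]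
    exact hA a
  have hG : ∀ k, ∀ g ∈ G k, DegLE qB g := by
    rintro k g ⟨b, s, -, rfl⟩
    refine DegLE.mono ?_ (degLE_run ((LB b).map (Step.restr S)) (d := 0) (v := fun _ => v b)
      (fun s => degLE_const 0 (v b s)) s)
    rw [asks_restr, zero_add]
    exact hB b
  obtain ⟨T, hT, hQ⟩ := tree_exists hdis hF hG
  refine ⟨T.mapPos Subtype.val, by rwa [DTree.depth_mapPos], fun h a b hab => ?_⟩
  have heq : kA a = kB b := by
    by_contra hne
    exact hab (hc h a b hne)
  rw [← heq, and_self, DTree.eval_mapPos]
  let x : S → ZMod 2 := fun i => if h i then 1 else 0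
  have hx : tb x = fun i : S => h i := by
    funext i
    simp only [tb, x]
    by_cases hi : h i = true
    · simp [hi]
    · simp only [hi]
      simp
  have h1 := left_ne_zero_of_mul hab
  have h2 := right_ne_zero_of_mul hab
  obtain ⟨s, -, hs⟩ := Finset.exists_ne_zero_of_sum_ne_zero h1
  obtain ⟨s', -, hs'⟩ := Finset.exists_ne_zero_of_sum_ne_zero h2
  rw [← hx]
  refine hQ x (kA a) ⟨_, ⟨a, s, rfl, rfl⟩, ?_⟩ ⟨_, ⟨b, s', heq.symm, rfl⟩, ?_⟩
  · simp only [hx]
    rw [run_restr S h (LA a) (u a) (hWA' a)]
    intro h0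
    exact hs (by rw [h0]; simp)
  · simp only [hx]
    rw [run_restr S h (LB b) (v b) (hWB' b)]
    intro h0
    exact hs' (by rw [h0]; simp)

/-- The bit chosen by the receiver can be computed from the transcript. -/
theorem OT.find_bit [Fintype σ] [Fintype τ] [Fintype M] (P : OT ι σ τ M)
    (hR : ∀ c, (P.receiver c).Normal) (t : List M) (c : Bool) (q : ℕ)
    (hqS : ∀ b, asks (P.stepsS b t) ≤ q)
    (hqR : ∀ y, asks (P.stepsR c t ++ (P.receiver c).out t y) ≤ q)
    (hc : ∀ (h : ι → Bool) (b : Bool × Bool) (y : Bool), y ≠ pick c b →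
      P.probOut h b c t y = 0) :
    ∃ T : DTree ι Bool, T.depth ≤ q ^ 3 * (q + 1) ∧ ∀ (h : ι → Bool) (b : Bool × Bool),
      P.prob h b c t ≠ 0 → T.eval h = pick c b := by
  obtain ⟨T, hT, hQ⟩ := core₂ (pick c) id (fun b => P.stepsS b t)
    (fun y => P.stepsR c t ++ (P.receiver c).out t y) (fun b => (P.sender b).init)
    (fun _ => (P.receiver c).init) q q hqS hqR
    (fun h b y hy => hc h b y fun h' => hy h'.symm)
  refine ⟨T, hT.trans (le_of_eq (by ring)), fun h b hb => ?_⟩
  have h1 : ∑ y, P.probOut h b c t y = P.prob h b c t := by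
    unfold OT.probOut OT.prob
    simp only [run_append, ← Finset.mul_sum, (hR c).out]
  rw [← h1] at hb
  obtain ⟨y, -, hy⟩ := Finset.exists_ne_zero_of_sum_ne_zero hb
  exact (hQ h b y hy).1

theorem OT.finds_eq_one [Fintype σ] [Fintype τ] [Fintype M] (P : OT ι σ τ M)
    (hS : ∀ b, (P.sender b).Normal) (hR : ∀ c, (P.receiver c).Normal) (n : ℕ) (h : ι → Bool)
    (c : Bool) (E : List M → Bool)
    (hE : ∀ t : List M, t.length = n → ∀ b, P.prob h b c t ≠ 0 → E t = pick c b) :
    P.finds n h c E c = 1 := by
  unfold OT.finds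
  have h1 : ∀ b : Bool × Bool, (∑ t : Fin n → M,
      if E (List.ofFn t) = pick c b then P.prob h b c (List.ofFn t) else 0) = 1 := by
    intro b
    rw [← P.sum_prob hS hR h b c n]
    refine Finset.sum_congr rfl fun t _ => ?_
    split_ifs with h2
    · rfl
    · by_contra h3
      exact h2 (hE _ (List.length_ofFn) b fun h4 => h3 h4.symm)
  rw [Finset.sum_congr rfl fun b _ => h1 b]
  simp

/-- Oblivious transfer. -/
theorem oblivious_transfer {σ τ : ℕ → Type} [∀ k, Fintype (σ k)] [∀ k, Fintype (τ k)]
    [Fintype M] (P : ∀ k, OT ι (σ k) (τ k) M) (n q : ℕ → ℕ)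
    (hS : ∀ k b, ((P k).sender b).Normal) (hR : ∀ k c, ((P k).receiver c).Normal)
    (hq : ∀ (k : ℕ) (t : List M) (b : Bool × Bool) (c y : Bool), t.length = n k →
      asks ((P k).stepsS b t) ≤ q k ∧
      asks ((P k).stepsR c t ++ ((P k).receiver c).out t y) ≤ q k)
    (hc : ∀ (k : ℕ) (h : ι → Bool) (b : Bool × Bool) (c : Bool) (t : List M) (y : Bool),
      t.length = n k → y ≠ pick c b → (P k).probOut h b c t y = 0) :
    ∃ Eve : ℕ × List M × Bool → DTree ι Bool,
      (∀ j, (Eve j).depth ≤ q j.1 ^ 3 * (q j.1 + 1)) ∧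
      (∀ (k : ℕ) (h : ι → Bool) (c : Bool),
        (P k).finds (n k) h c (fun t => (Eve (k, t, c)).eval h) c = 1) ∧
      OneWayDespite Eve (fun j => q j.1) := by
  classical
  have hex : ∀ j : ℕ × List M × Bool, ∃ T : DTree ι Bool, T.depth ≤ q j.1 ^ 3 * (q j.1 + 1) ∧
      (j.2.1.length = n j.1 → ∀ h b, (P j.1).prob h b j.2.2 j.2.1 ≠ 0 →
        T.eval h = pick j.2.2 b) := by
    rintro ⟨k, t, c⟩
    by_cases ht : t.length = n k
    · obtain ⟨T, hT, hQ⟩ := (P k).find_bit (hR k) t c (q k)
        (fun b => (hq k t b c false ht).1) (fun y => (hq k t (false, false) c y ht).2)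
        (fun h b y hy => hc k h b c t y ht hy)
      exact ⟨T, hT, fun _ => hQ⟩
    · exact ⟨.leaf false, by simp [DTree.depth], fun h => absurd h ht⟩
  choose Eve hdepth hEve using hex
  refine ⟨Eve, hdepth, fun k h c => ?_, oneWayDespite Eve _ hdepth⟩
  exact (P k).finds_eq_one (hS k) (hR k) (n k) h c _ fun t ht b hb => hEve (k, t, c) ht h b hb

end Pool.Agent.H822R2.KA
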