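import Pool.Agent.H822R2.KA.Hyb

/-!
# Random functions stay one-way relative to any family of shallow decision trees
-/

set_option autoImplicit false

namespace Pool.Agent.H822R2.KA

open Finset

variable {ι κ X J : Type} {m : ℕ}

/-- The oracle `h` in which the function `F` is written at the positions `pos`: the bit number `j`
of `F x` is at the position `pos (x, j)`. -/
noncomputable def write (pos : X × Fin m → ι) (h : ι → Bool) (F : X → Fin m → Bool) : ι → Bool :=
  Function.extend pos (fun p => F p.1 p.2) h

/-- The oracle `h` together with the results of a family of decision trees. -/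
def withTrees (T : J → DTree ι Bool) (h : ι → Bool) : ι ⊕ J → Bool :=
  Sum.elim h fun j => (T j).eval h

theorem write_pos {pos : X × Fin m → ι} (hp : Function.Injective pos) (h : ι → Bool)
    (F : X → Fin m → Bool) (x : X) (j : Fin m) : write pos h F (pos (x, j)) = F x j :=
  hp.extend_apply _ _ _

theorem write_other {pos : X × Fin m → ι} (h : ι → Bool) (F : X → Fin m → Bool) {i : ι}
    (hi : ¬ ∃ p, pos p = i) : write pos h F i = h i :=
  Function.extend_apply' _ _ _ hi

open scoped Classical in
theorem card_touch [Fintype X] [DecidableEq X] {pos : X × Fin m → ι} (hp : Function.Injective pos) (h : ι → Bool)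
    (F : X → Fin m → Bool) (y : Fin m → Bool) (i : ι) :
    ((Finset.univ : Finset X).filter fun x =>
      write pos h (Function.update F x y) i ≠ write pos h F i).card ≤ 1 := by
  rw [Finset.card_le_one]
  intro a ha b hb
  simp only [Finset.mem_filter, Finset.mem_univ, true_and] at ha hb
  by_cases hi : ∃ p, pos p = i
  · obtain ⟨⟨x, j⟩, rfl⟩ := hi
    rw [write_pos hp, write_pos hp] at ha hb
    have h1 : x = a := by
      by_contra hne
      exact ha (by rw [Function.update_of_ne hne])
    have h2 : x = b := by
      by_contra hne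
      exact hb (by rw [Function.update_of_ne hne])
    rw [← h1, ← h2]
  · exact absurd (by rw [write_other _ _ hi, write_other _ _ hi]) ha

open scoped Classical in
theorem tree_sens [Fintype X] [DecidableEq X] {pos : X × Fin m → ι} (hp : Function.Injective pos) (h : ι → Bool)
    (F : X → Fin m → Bool) (y : Fin m → Bool) (T : DTree ι κ) :
    ((Finset.univ : Finset X).filter fun x =>
      T.eval (write pos h (Function.update F x y)) ≠ T.eval (write pos h F)).card ≤ T.depth := by
  induction T with
  | leaf k => simp [DTree.eval]
  | node i t₀ t₁ h₀ h₁ =>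
    obtain ⟨t, ht, hsub⟩ : ∃ t : DTree ι κ, (t = t₀ ∨ t = t₁) ∧
        ∀ h' : ι → Bool, h' i = write pos h F i → (DTree.node i t₀ t₁).eval h' = t.eval h' := by
      rcases Bool.eq_false_or_eq_true (write pos h F i) with hb | hb
      · exact ⟨t₁, Or.inr rfl, fun h' hh => by simp [DTree.eval, hh, hb]⟩
      · exact ⟨t₀, Or.inl rfl, fun h' hh => by simp [DTree.eval, hh, hb]⟩
    have hcard : ((Finset.univ : Finset X).filter fun x =>
        t.eval (write pos h (Function.update F x y)) ≠ t.eval (write pos h F)).card ≤
        max t₀.depth t₁.depth := by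
      rcases ht with rfl | rfl
      · exact h₀.trans (le_max_left _ _)
      · exact h₁.trans (le_max_right _ _)
    have hunion : ((Finset.univ : Finset X).filter fun x =>
        (DTree.node i t₀ t₁).eval (write pos h (Function.update F x y)) ≠
          (DTree.node i t₀ t₁).eval (write pos h F)) ⊆
        ((Finset.univ : Finset X).filter fun x =>
          t.eval (write pos h (Function.update F x y)) ≠ t.eval (write pos h F)) ∪
        ((Finset.univ : Finset X).filter fun x =>
          write pos h (Function.update F x y) i ≠ write pos h F i) := by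
      intro x hx
      simp only [Finset.mem_filter, Finset.mem_univ, true_and, Finset.mem_union] at hx ⊢
      by_contra hcon
      push Not at hcon
      apply hx
      rw [hsub _ hcon.2, hsub _ rfl]
      exact hcon.1
    refine (Finset.card_le_card hunion).trans ((Finset.card_union_le _ _).trans ?_)
    have := card_touch hp h F y i
    simp only [DTree.depth]
    omega

theorem resample [Fintype X] [DecidableEq X] (x' : X)
    (G : (X → Fin m → Bool) → (Fin m → Bool) → ℝ) :
    (2 : ℝ) ^ m * ∑ F, G F (F x') = ∑ F : X → Fin m → Bool, ∑ y, G (Function.update F x' y) y := by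
  have h1 : ∑ F : X → Fin m → Bool, ∑ y, G (Function.update F x' y) y =
      ∑ p : (X → Fin m → Bool) × (Fin m → Bool), G (Function.update p.1 x' p.2) p.2 :=
    (Fintype.sum_prod_type (fun p : (X → Fin m → Bool) × (Fin m → Bool) =>
      G (Function.update p.1 x' p.2) p.2)).symm
  have h2 : (2 : ℝ) ^ m * ∑ F, G F (F x') =
      ∑ p : (X → Fin m → Bool) × (Fin m → Bool), G p.1 (p.1 x') := by
    rw [Fintype.sum_prod_type]
    simp only [Finset.sum_const, Finset.card_univ, Fintype.card_fun, Fintype.card_bool,
      Fintype.card_fin, nsmul_eq_mul, ← Finset.mul_sum]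
    push_cast
    rfl
  rw [h1, h2]
  let φ : (X → Fin m → Bool) × (Fin m → Bool) → (X → Fin m → Bool) × (Fin m → Bool) :=
    fun p => (Function.update p.1 x' p.2, p.1 x')
  have hφ : Function.Involutive φ := by
    rintro ⟨F, y⟩
    simp [φ]
  rw [← Equiv.sum_comp (hφ.toPerm φ)]
  refine Finset.sum_congr rfl fun p _ => ?_
  simp [φ, Function.Involutive.coe_toPerm]

variable {ρ : Type} [Fintype ρ]

/-- The average probability, over the functions `F : X → {0,1} ^ m` and over `x`, that an algorithm
which gets `F x`, with the oracle `O F`, finds some `x'` with `F x' = F x`. -/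
noncomputable def success [Fintype X] [DecidableEq X] (O : (X → Fin m → Bool) → ι → Bool)
    (R : (Fin m → Bool) → List (Step ι ρ)) (u : ρ → ℂ) (out : ρ → X) : ℝ :=
  (∑ F : X → Fin m → Bool, ∑ x : X, ∑ s : ρ,
    if F (out s) = F x then ‖run (O F) (R (F x)) u s‖ ^ 2 else 0) /
    (Fintype.card (X → Fin m → Bool) * Fintype.card X)

theorem success_eq [Fintype X] [DecidableEq X] (O : (X → Fin m → Bool) → ι → Bool)
    (R : (Fin m → Bool) → List (Step ι ρ)) (u : ρ → ℂ) (out : ρ → X) (F : X → Fin m → Bool) :
    (∑ x : X, ∑ s : ρ, if F (out s) = F x then ‖run (O F) (R (F x)) u s‖ ^ 2 else 0) =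
    ∑ x' : X, ((Finset.univ.filter fun x => F x = F x').card : ℝ) *
      outp (O F) (R (F x')) u out x' := by
  have h1 : ∀ x : X, (∑ s : ρ, if F (out s) = F x then ‖run (O F) (R (F x)) u s‖ ^ 2 else 0) =
      ∑ x' : X, if F x = F x' then outp (O F) (R (F x')) u out x' else 0 := by
    intro x
    unfold outp
    have : ∀ x' : X, (if F x = F x' then ∑ s : ρ,
        (if out s = x' then ‖run (O F) (R (F x')) u s‖ ^ 2 else 0) else 0) =
        ∑ s : ρ, if out s = x' then (if F x = F x' then ‖run (O F) (R (F x)) u s‖ ^ 2 else 0)
          else 0 := by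
      intro x'
      split_ifs with h
      · rw [h]
      · simp
    rw [Finset.sum_congr rfl fun x' _ => this x', Finset.sum_comm]
    refine Finset.sum_congr rfl fun s _ => ?_
    rw [Finset.sum_ite_eq, if_pos (Finset.mem_univ _)]
    by_cases h : F (out s) = F x
    · rw [if_pos h, if_pos h.symm]
    · rw [if_neg h, if_neg fun h' => h h'.symm]
  rw [Finset.sum_congr rfl fun x _ => h1 x, Finset.sum_comm]
  refine Finset.sum_congr rfl fun x' _ => ?_
  rw [← Finset.sum_filter, Finset.sum_const, nsmul_eq_mul]

/-- A random function is one-way relative to shallow decision trees. -/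
theorem one_way [Fintype X] [DecidableEq X] [Nonempty X] {pos : X × Fin m → ι}
    (hp : Function.Injective pos) (h₀ : ι → Bool) (T : J → DTree ι Bool) (D r : ℕ)
    (R : (Fin m → Bool) → List (Step (ι ⊕ J) ρ)) (u : ρ → ℂ) (out : ρ → X)
    (hu : nsq u ≤ 1) (hR : ∀ y, IsContr (R y)) (hr : ∀ y, asks (R y) ≤ r)
    (hD : ∀ y, Asked (fun i => ∀ j, i = Sum.inr j → (T j).depth ≤ D) (R y)) :
    success (fun F => withTrees T (write pos h₀ F)) R u out ≤
      (2 + 8 * r ^ 2 * (D + 1)) * (1 / 2 ^ m + 1 / Fintype.card X) := by
  classical
  set O : (X → Fin m → Bool) → ι ⊕ J → Bool := fun F => withTrees T (write pos h₀ F) with hO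
  set B : ℝ := 2 + 8 * r ^ 2 * (D + 1) with hB
  have hB0 : 0 ≤ B := by positivity
  have hX : (0 : ℝ) < Fintype.card X := by exact_mod_cast Fintype.card_pos
  -- the hybrid bound
  have hyb : ∀ (F : X → Fin m → Bool) (y : Fin m → Bool),
      ∑ x' : X, outp (O (Function.update F x' y)) (R y) u out x' ≤ B := by
    intro F y
    have := sum_outp_hyb (O F) (fun x' => O (Function.update F x' y)) (D + 1) r (R y) u out
      (hR y) (fun q hq s i hi => ?_) (hr y) hu
    · push_cast at this
      exact this
    · have hDi := hD y q hq s i hi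
      rcases i with i | j
      · refine le_trans (le_of_eq ?_) ((card_touch hp h₀ F y i).trans (Nat.le_add_left 1 D))
        congr 1
      · refine le_trans (le_of_eq ?_) ((tree_sens hp h₀ F y (T j)).trans
          ((hDi j rfl).trans (Nat.le_succ D)))
        refine congrArg Finset.card (Finset.ext fun x => ?_)
        simp only [Finset.mem_filter, Finset.mem_univ, true_and]
        exact Iff.rfl
  -- resampling
  have hmain : (2 : ℝ) ^ m * ∑ F : X → Fin m → Bool, (∑ x : X, ∑ s : ρ,
      if F (out s) = F x then ‖run (O F) (R (F x)) u s‖ ^ 2 else 0) ≤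
      ∑ F : X → Fin m → Bool, ∑ y : Fin m → Bool,
        (1 + ((Finset.univ.filter fun x => F x = y).card : ℝ)) * B := by
    have e1 : ∀ F : X → Fin m → Bool, (∑ x : X, ∑ s : ρ,
        if F (out s) = F x then ‖run (O F) (R (F x)) u s‖ ^ 2 else 0) =
        ∑ x' : X, ((Finset.univ.filter fun x => F x = F x').card : ℝ) *
          outp (O F) (R (F x')) u out x' := fun F => success_eq O R u out F
    rw [Finset.sum_congr rfl fun F _ => e1 F, Finset.sum_comm, Finset.mul_sum]
    have e2 : ∀ x' : X, (2 : ℝ) ^ m * ∑ F : X → Fin m → Bool,
        ((Finset.univ.filter fun x => F x = F x').card : ℝ) *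
          outp (O F) (R (F x')) u out x' ≤
        ∑ F : X → Fin m → Bool, ∑ y : Fin m → Bool,
          (1 + ((Finset.univ.filter fun x => F x = y).card : ℝ)) *
            outp (O (Function.update F x' y)) (R y) u out x' := by
      intro x'
      rw [resample x' (fun F y => ((Finset.univ.filter fun x => F x = y).card : ℝ) *
          outp (O F) (R y) u out x')]
      refine Finset.sum_le_sum fun F _ => Finset.sum_le_sum fun y _ => ?_
      refine mul_le_mul_of_nonneg_right ?_ (outp_nonneg _ _ _ _ _)
      have hsub : (Finset.univ.filter fun x => Function.update F x' y x = y) ⊆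
          insert x' (Finset.univ.filter fun x => F x = y) := by
        intro x hx
        simp only [Finset.mem_filter, Finset.mem_univ, true_and, Finset.mem_insert] at hx ⊢
        by_cases h : x = x'
        · exact Or.inl h
        · rw [Function.update_of_ne h] at hx
          exact Or.inr hx
      have h2 := (Finset.card_le_card hsub).trans (Finset.card_insert_le _ _)
      have h3 : ((Finset.univ.filter fun x => Function.update F x' y x = y).card : ℝ) ≤
          ((Finset.univ.filter fun x => F x = y).card + 1 : ℕ) := Nat.cast_le.2 h2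
      push_cast at h3
      linarith
    refine (Finset.sum_le_sum fun x' _ => e2 x').trans ?_
    rw [Finset.sum_comm]
    refine Finset.sum_le_sum fun F _ => ?_
    rw [Finset.sum_comm]
    refine Finset.sum_le_sum fun y _ => ?_
    rw [← Finset.mul_sum]
    exact mul_le_mul_of_nonneg_left (hyb F y) (by positivity)
  have hcount : ∀ F : X → Fin m → Bool, ∑ y : Fin m → Bool,
      (1 + ((Finset.univ.filter fun x => F x = y).card : ℝ)) * B =
      (2 ^ m + Fintype.card X) * B := by
    intro F
    rw [← Finset.sum_mul, Finset.sum_add_distrib]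
    congr 1
    have h1 : ∑ y : Fin m → Bool, ((Finset.univ.filter fun x => F x = y).card : ℝ) =
        Fintype.card X := by
      have := Finset.card_eq_sum_card_fiberwise (f := F) (s := (Finset.univ : Finset X))
        (t := Finset.univ) (fun x _ => by simp)
      rw [← Finset.card_univ, this]
      push_cast
      rfl
    rw [h1]
    simp
  rw [Finset.sum_congr rfl fun F _ => hcount F, Finset.sum_const, Finset.card_univ,
    nsmul_eq_mul] at hmain
  have hN : (0 : ℝ) < Fintype.card (X → Fin m → Bool) := by exact_mod_cast Fintype.card_pos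
  have h2m : (0 : ℝ) < 2 ^ m := by positivity
  unfold success
  rw [div_le_iff₀ (by positivity)]
  have e3 : B * (1 / 2 ^ m + 1 / (Fintype.card X : ℝ)) *
      (Fintype.card (X → Fin m → Bool) * Fintype.card X) =
      (Fintype.card (X → Fin m → Bool) * ((2 ^ m + Fintype.card X) * B)) / 2 ^ m := by
    field_simp
    ring
  rw [e3, le_div_iff₀ h2m, mul_comm]
  exact hmain

end Pool.Agent.H822R2.KA
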