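import Pool.Agent.H822R2.KA.Deg

/-!
# The decision tree which finds the common key
-/

set_option autoImplicit false

namespace Pool.Agent.H822R2.KA

open Finset Pool.Agent.H627R2.Pcc

variable {ι κ : Type} [DecidableEq ι]

/-- Asking for all the positions of a finite set. -/
theorem ask_all (Q : (ι → ZMod 2) → κ → Prop) (N : ℕ) (C : Finset ι) :
    ∀ (J : Finset ι) (pt : ι → ZMod 2),
    (∀ y : ι → ZMod 2, (∀ i ∈ J, y i = pt i) → ∃ T : DTree ι κ, T.depth ≤ N ∧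
      ∀ x : ι → ZMod 2, (∀ i ∈ J ∪ C, x i = y i) → Q x (T.eval (tb x))) →
    ∃ T : DTree ι κ, T.depth ≤ C.card + N ∧
      ∀ x : ι → ZMod 2, (∀ i ∈ J, x i = pt i) → Q x (T.eval (tb x)) := by
  induction C using Finset.induction_on with
  | empty =>
    intro J pt h
    obtain ⟨T, hT, hQ⟩ := h pt fun _ _ => rfl
    exact ⟨T, by simpa using hT, fun x hx => hQ x (by simpa using hx)⟩
  | insert i C hi ih =>
    intro J pt h
    by_cases hiJ : i ∈ J
    · have e : J ∪ insert i C = J ∪ C := by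
        ext j
        simp only [Finset.mem_union, Finset.mem_insert]
        constructor
        · rintro (h1 | rfl | h1)
          · exact Or.inl h1
          · exact Or.inl hiJ
          · exact Or.inr h1
        · rintro (h1 | h1)
          · exact Or.inl h1
          · exact Or.inr (Or.inr h1)
      rw [e] at h
      obtain ⟨T, hT, hQ⟩ := ih J pt h
      refine ⟨T, hT.trans ?_, hQ⟩
      rw [Finset.card_insert_of_notMem hi]
      omega
    · have key : ∀ b : ZMod 2, ∃ T : DTree ι κ, T.depth ≤ C.card + N ∧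
          ∀ x : ι → ZMod 2, (∀ j ∈ J, x j = pt j) → x i = b → Q x (T.eval (tb x)) := by
        intro b
        obtain ⟨T, hT, hQ⟩ := ih (insert i J) (Function.update pt i b) fun y hy => by
          obtain ⟨T, hT, hQ⟩ := h y fun j hj => by
            have hji : j ≠ i := fun h => hiJ (h ▸ hj)
            rw [hy j (Finset.mem_insert_of_mem hj), Function.update_of_ne hji]
          refine ⟨T, hT, fun x hx => hQ x fun j hj => hx j ?_⟩
          simp only [Finset.mem_union, Finset.mem_insert] at hj ⊢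
          tauto
        refine ⟨T, hT, fun x hx hxi => hQ x fun j hj => ?_⟩
        by_cases hji : j = i
        · rw [hji, Function.update_self, hxi]
        · rw [Function.update_of_ne hji, hx j (Finset.mem_of_mem_insert_of_ne hj hji)]
      obtain ⟨T0, hT0, hQ0⟩ := key 0
      obtain ⟨T1, hT1, hQ1⟩ := key 1
      refine ⟨.node i T0 T1, ?_, fun x hx => ?_⟩
      · rw [Finset.card_insert_of_notMem hi]
        simp only [DTree.depth]
        omega
      · have hcase : x i = 0 ∨ x i = 1 := by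
          generalize x i = z
          revert z
          decide
        simp only [DTree.eval]
        rcases hcase with h0 | h1
        · have ht : tb x i = false := by
            simp only [tb, h0]
            decide
          rw [if_neg (by rw [ht]; exact Bool.false_ne_true)]
          exact hQ0 x hx h0
        · have ht : tb x i = true := by
            simp only [tb, h1]
            decide
          rw [if_pos ht]
          exact hQ1 x hx h1

variable [Fintype ι]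

/-- Two indexed families of functions, `f g = 0` for `f` in the first family with index `a` and `g`
in the second family with index `b ≠ a`: a decision tree finds the common index. -/
theorem tree_main {F G : κ → Set ((ι → ZMod 2) → ℂ)} {d : ℕ}
    (hdis : ∀ a b, a ≠ b → ∀ f ∈ F a, ∀ g ∈ G b, ∀ x, f x * g x = 0)
    (hG : ∀ b, ∀ g ∈ G b, DegLE d g) (e : ℕ) :
    ∀ (R : Set κ) (b₀ : κ) (J : Finset ι) (pt : ι → ZMod 2),
    (∀ a ∈ R, a ≠ b₀ → DegOn (F a) J pt e) →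
    ∃ T : DTree ι κ, T.depth ≤ d ^ 2 * (e * (e + 1)) ∧
      ∀ x : ι → ZMod 2, (∀ i ∈ J, x i = pt i) → ∀ k ∈ R, (∃ f ∈ F k, f x ≠ 0) →
        (∃ g ∈ G k, g x ≠ 0) → T.eval (tb x) = k := by
  induction e with
  | zero =>
    have step : ∀ (R : Set κ) (b : κ) (J : Finset ι) (pt : ι → ZMod 2),
        (∀ a ∈ R, a ≠ b → DegOn (F a) J pt 0) → (∃ g ∈ G b, ∃ x₀ : ι → ZMod 2,
          (∀ i ∈ J, x₀ i = pt i) ∧ g x₀ ≠ 0) →
        ∀ x : ι → ZMod 2, (∀ i ∈ J, x i = pt i) → ∀ k ∈ R, (∃ f ∈ F k, f x ≠ 0) → b = k := by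
      rintro R b J pt hdeg ⟨g, hg, x₀, hx₀, hgx₀⟩ x hx k hk ⟨f, hf, hfx⟩
      by_contra hne
      obtain ⟨C, x', hx', hC, hvan⟩ := exists_cert (S := {f | ∃ a ∈ R, a ≠ b ∧ f ∈ F a})
        (hG b g hg) (fun f ⟨a, _, hab, hfa⟩ y => hdis a b hab f hfa g hg y)
        (J := J) (a := pt) (e := 0)
        (fun f ⟨a, haR, hab, hfa⟩ => hdeg a haR hab f hfa) hx₀ hgx₀
      have hC0 : C = ∅ := by
        rw [← Finset.card_eq_zero]
        simpa using hC
      subst hC0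
      refine hfx (hvan f ⟨k, hk, fun h => hne h.symm, hf⟩ x fun i hi => ?_)
      rw [Finset.union_empty] at hi
      rw [hx i hi, hx' i hi]
    intro R b₀ J pt hdeg
    by_cases h0 : ∃ g ∈ G b₀, ∃ x₀ : ι → ZMod 2, (∀ i ∈ J, x₀ i = pt i) ∧ g x₀ ≠ 0
    · exact ⟨.leaf b₀, by simp [DTree.depth], fun x hx k hk hf _ =>
        step R b₀ J pt hdeg h0 x hx k hk hf⟩
    · by_cases h1 : ∃ b ∈ R, b ≠ b₀ ∧ ∃ g ∈ G b, ∃ x₀ : ι → ZMod 2,
        (∀ i ∈ J, x₀ i = pt i) ∧ g x₀ ≠ 0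
      · obtain ⟨b, hb, hbb, h2⟩ := h1
        refine ⟨.leaf b, by simp [DTree.depth], fun x hx k hk hf hg => ?_⟩
        refine step (R \ {b₀}) b J pt (fun a ha hab => hdeg a ha.1 ha.2) h2 x hx k ⟨hk, ?_⟩ hf
        rintro (rfl : k = b₀)
        obtain ⟨g, hg, hgx⟩ := hg
        exact h0 ⟨g, hg, x, hx, hgx⟩
      · refine ⟨.leaf b₀, by simp [DTree.depth], fun x hx k hk hf hg => ?_⟩
        by_contra hne
        obtain ⟨g, hg, hgx⟩ := hg
        exact h1 ⟨k, hk, fun h => hne (by simp [DTree.eval, h]), g, hg, x, hx, hgx⟩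
  | succ e ih =>
    have step : ∀ (R : Set κ) (b : κ) (J : Finset ι) (pt : ι → ZMod 2),
        (∀ a ∈ R, a ≠ b → DegOn (F a) J pt (e + 1)) → (∃ g ∈ G b, ∃ x₀ : ι → ZMod 2,
          (∀ i ∈ J, x₀ i = pt i) ∧ g x₀ ≠ 0) →
        ∃ T : DTree ι κ, T.depth ≤ d ^ 2 * ((e + 1) * (e + 1 + 1)) ∧
        ∀ x : ι → ZMod 2, (∀ i ∈ J, x i = pt i) → ∀ k ∈ R, (∃ f ∈ F k, f x ≠ 0) →
          (∃ g ∈ G k, g x ≠ 0) → T.eval (tb x) = k := by
      rintro R b J pt hdeg ⟨g, hg, x₀, hx₀, hgx₀⟩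
      have hS : DegOn {f | ∃ a ∈ R, a ≠ b ∧ f ∈ F a} J pt (e + 1) :=
        fun f ⟨a, haR, hab, hfa⟩ => hdeg a haR hab f hfa
      obtain ⟨C, x', hx', hC, hvan⟩ := exists_cert (S := {f | ∃ a ∈ R, a ≠ b ∧ f ∈ F a})
        (hG b g hg) (fun f ⟨a, _, hab, hfa⟩ y => hdis a b hab f hfa g hg y)
        (J := J) (a := pt) (e := e + 1) hS hx₀ hgx₀
      obtain ⟨T, hT, hQ⟩ := ask_all (fun x k' => ∀ k ∈ R, (∃ f ∈ F k, f x ≠ 0) →
        (∃ g ∈ G k, g x ≠ 0) → k' = k) (d ^ 2 * (e * (e + 1))) C J pt fun y hy => by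
          refine ih R b (J ∪ C) y fun a ha hab => ?_
          have h := degOn_reduce hS C x' hx' hvan y hy
          exact fun f hf => h f ⟨a, ha, hab, hf⟩
      refine ⟨T, hT.trans ?_, hQ⟩
      calc C.card + d ^ 2 * (e * (e + 1)) ≤ 2 * d ^ 2 * (e + 1) + d ^ 2 * (e * (e + 1)) := by
            omega
        _ = d ^ 2 * ((e + 1) * (e + 1 + 1)) := by ring
    intro R b₀ J pt hdeg
    by_cases h0 : ∃ g ∈ G b₀, ∃ x₀ : ι → ZMod 2, (∀ i ∈ J, x₀ i = pt i) ∧ g x₀ ≠ 0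
    · exact step R b₀ J pt hdeg h0
    · by_cases h1 : ∃ b ∈ R, b ≠ b₀ ∧ ∃ g ∈ G b, ∃ x₀ : ι → ZMod 2,
        (∀ i ∈ J, x₀ i = pt i) ∧ g x₀ ≠ 0
      · obtain ⟨b, hb, hbb, h2⟩ := h1
        obtain ⟨T, hT, hQ⟩ := step (R \ {b₀}) b J pt (fun a ha hab => hdeg a ha.1 ha.2) h2
        refine ⟨T, hT, fun x hx k hk hf hg => hQ x hx k ⟨hk, ?_⟩ hf hg⟩
        rintro (rfl : k = b₀)
        obtain ⟨g, hg, hgx⟩ := hg
        exact h0 ⟨g, hg, x, hx, hgx⟩
      · refine ⟨.leaf b₀, by simp [DTree.depth], fun x hx k hk hf hg => ?_⟩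
        by_contra hne
        obtain ⟨g, hg, hgx⟩ := hg
        exact h1 ⟨k, hk, fun h => hne (by simp [DTree.eval, h]), g, hg, x, hx, hgx⟩

omit [Fintype ι] in
theorem degOn_of_degLE {S : Set ((ι → ZMod 2) → ℂ)} {e : ℕ} (h : ∀ f ∈ S, DegLE e f)
    (J : Finset ι) (pt : ι → ZMod 2) : DegOn S J pt e :=
  fun f hf _ _ hT x _ => (h f hf).D_eq_zero hT x

theorem tree_exists [Nonempty κ] {F G : κ → Set ((ι → ZMod 2) → ℂ)} {d e : ℕ}
    (hdis : ∀ a b, a ≠ b → ∀ f ∈ F a, ∀ g ∈ G b, ∀ x, f x * g x = 0)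
    (hF : ∀ b, ∀ f ∈ F b, DegLE e f) (hG : ∀ b, ∀ g ∈ G b, DegLE d g) :
    ∃ T : DTree ι κ, T.depth ≤ d ^ 2 * (e * (e + 1)) ∧
      ∀ (x : ι → ZMod 2) (k : κ), (∃ f ∈ F k, f x ≠ 0) → (∃ g ∈ G k, g x ≠ 0) →
        T.eval (tb x) = k := by
  obtain ⟨k₀⟩ := ‹Nonempty κ›
  obtain ⟨T, hT, hQ⟩ := tree_main hdis hG e Set.univ k₀ ∅ 0
    fun a _ _ => degOn_of_degLE (hF a) _ _
  exact ⟨T, hT, fun x k h1 h2 => hQ x (by simp) k (Set.mem_univ k) h1 h2⟩

end Pool.Agent.H822R2.KA
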